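import Pool.Agent.Lib.MP_ca9574_an.Boundary

set_option autoImplicit false

namespace Pool.Agent.Results.MP_ca9574_an.NaturalBoundaryAffineDiscs

open Metric Set

/-- `f` is in the class `A^∞(B)` of the open unit ball `B` of `ℂⁿ`: it is continuous on the closed
ball, holomorphic in the open ball, and for every order `k` its `k`-th complex derivative (the
tensor of all partial derivatives of order `k`) extends continuously to the closed ball. -/
def AInfty (n : ℕ) (f : EuclideanSpace ℂ (Fin n) → ℂ) : Prop :=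
  ContinuousOn f (closedBall 0 1) ∧ DifferentiableOn ℂ f (ball 0 1) ∧
  ∀ k : ℕ, ∃ g : EuclideanSpace ℂ (Fin n) → (EuclideanSpace ℂ (Fin n)) [×k]→L[ℂ] ℂ,
    ContinuousOn g (closedBall 0 1) ∧ ∀ z ∈ ball 0 1, iteratedFDeriv ℂ k f z = g z

/-- Property (NB): for every nonconstant complex affine map `Φ(l) = a + l b` with `Φ(T) ⊂ S`,
no point `τ` of the unit circle `T` has an open disc `D ∋ τ` with a holomorphic `h` on `D`
which agrees with `f ∘ Φ` on `D ∩ U`. -/
def NB (n : ℕ) (f : EuclideanSpace ℂ (Fin n) → ℂ) : Prop :=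
  ∀ a b : EuclideanSpace ℂ (Fin n), b ≠ 0 → (∀ l : ℂ, ‖l‖ = 1 → ‖a + l • b‖ = 1) →
    ∀ τ : ℂ, ‖τ‖ = 1 → ∀ (c : ℂ) (r : ℝ), τ ∈ ball c r →
      ¬ ∃ h : ℂ → ℂ, DifferentiableOn ℂ h (ball c r) ∧
        ∀ l ∈ ball c r ∩ ball 0 1, h l = f (a + l • b)

open Pool.Agent.Lib.MP_ca9574_an in
/-- For every `n > 1` there is `f ∈ A^∞(B)` with property (NB). -/
theorem result (n : ℕ) (hn : 1 < n) :
    ∃ f : EuclideanSpace ℂ (Fin n) → ℂ, AInfty n f ∧ NB n f := by
  have : Nonempty (sphere (0 : EuclideanSpace ℂ (Fin n)) 1) := by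
    refine ⟨⟨EuclideanSpace.single (⟨0, by omega⟩ : Fin n) (1 : ℂ), ?_⟩⟩
    rw [mem_sphere_zero_iff_norm]
    simp
  set d : ℕ → EuclideanSpace ℂ (Fin n) := fun j =>
    (TopologicalSpace.denseSeq (sphere (0 : EuclideanSpace ℂ (Fin n)) 1) j :
      EuclideanSpace ℂ (Fin n)) with hd
  set η : ℕ → EuclideanSpace ℂ (Fin n) := fun k => d (Nat.unpair k).1 with hη
  have hη1 : ∀ k, ‖η k‖ = 1 := by
    intro k
    simp only [hη, hd]
    exact mem_sphere_zero_iff_norm.1 (Subtype.coe_prop _)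
  have hdense : ∀ p : EuclideanSpace ℂ (Fin n), 1 < ‖p‖ → ∃ j, 1 < ‖innerSL ℂ (d j) p‖ := by
    intro p hp
    have hp0 : p ≠ 0 := by
      intro h0
      rw [h0, norm_zero] at hp
      linarith
    have hopen : IsOpen {u : sphere (0 : EuclideanSpace ℂ (Fin n)) 1 |
        1 < ‖innerSL ℂ (u : EuclideanSpace ℂ (Fin n)) p‖} := by
      apply isOpen_lt continuous_const
      simp only [innerSL_apply_apply]
      fun_prop
    have hne : {u : sphere (0 : EuclideanSpace ℂ (Fin n)) 1 |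
        1 < ‖innerSL ℂ (u : EuclideanSpace ℂ (Fin n)) p‖}.Nonempty := by
      refine ⟨⟨((‖p‖⁻¹ : ℝ) : ℂ) • p, ?_⟩, ?_⟩
      · rw [mem_sphere_zero_iff_norm, norm_smul, Complex.norm_real, norm_inv, norm_norm]
        exact inv_mul_cancel₀ (by positivity)
      · show 1 < ‖innerSL ℂ (((‖p‖⁻¹ : ℝ) : ℂ) • p) p‖
        rw [innerSL_apply_apply, inner_smul_left, norm_mul, inner_self_eq_norm_sq_to_K]
        rw [Complex.conj_ofReal, Complex.norm_real, norm_inv, norm_norm]
        simp only [norm_pow]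
        rw [RCLike.norm_ofReal, abs_of_nonneg (norm_nonneg p)]
        have : ‖p‖⁻¹ * ‖p‖ ^ 2 = ‖p‖ := by
          have : ‖p‖ ≠ 0 := by positivity
          field_simp
        rw [this]
        exact hp
    obtain ⟨j, hj⟩ := (TopologicalSpace.denseRange_denseSeq
      (sphere (0 : EuclideanSpace ℂ (Fin n)) 1)).exists_mem_open hopen hne
    exact ⟨j, hj⟩
  refine ⟨F η, ⟨continuousOn_F hη1, differentiableOn_F hη1, fun k => ?_⟩, ?_⟩
  · exact ⟨_, continuousOn_sum hη1 k, iteratedFDeriv_F hη1 k⟩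
  · intro a b hb hab τ hτ c r hτc ⟨h, hh, heq⟩
    exact no_extension hη1 (fun _ => rfl) hdense hb hab hτ hτc hh heq

end Pool.Agent.Results.MP_ca9574_an.NaturalBoundaryAffineDiscs
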